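import Pool.Agent.P.MP_c44e76_an.Main

namespace Pool.Agent.Results.MP_c44e76_an.InverseShadowing

open Pool.Agent.P.MP_c44e76_an

theorem result (X : Type*) [TopologicalSpace X] [CompactSpace X] [T2Space X] [Nonempty X]
    (G : Set (X × X)) (hG : IsClosed G) (hD : Set.diagonal X ⊆ G)
    (h : HasShadowing G 2 2) (i : ℕ) (hi : i = 1 ∨ i = 2) :
    HasShadowing {p : X × X | (p.2, p.1) ∈ G} i 2 :=
  main G hG hD h i hi

end Pool.Agent.Results.MP_c44e76_an.InverseShadowing
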