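import Pool.Agent.P.MP_c44e76_an.Trans

namespace Pool.Agent.Results.MP_c44e76_an.TransitiveShadowing

open Pool.Agent.P.MP_c44e76_an Topology

/-- Classification of the closed transitive relations with the `(2,2)`-shadowing property: they
are the closed relations separated by inward sets, and also the chain relations. -/
theorem result (X : Type*) [TopologicalSpace X] [CompactSpace X] [T2Space X]
    (G : Set (X × X)) (hD : ∀ a, ∃ b, (a, b) ∈ G) : List.TFAE
    [IsClosed G ∧ (∀ a b c, (a, b) ∈ G → (b, c) ∈ G → (a, c) ∈ G) ∧ HasShadowing G 2 2,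
      IsClosed G ∧ ∀ x y, (x, y) ∉ G → ∃ A : Set X, IsClosed A ∧ y ∉ A ∧
        ∀ a b, a = x ∨ a ∈ A → (a, b) ∈ G → b ∈ interior A,
      ∃ F : Set (X × X), IsClosed F ∧ ∀ x y, (x, y) ∈ G ↔ ∀ V ∈ 𝓝ˢ (Set.diagonal X),
        Relation.TransGen (fun a b => ∃ z, (a, z) ∈ F ∧ (b, z) ∈ V) x y] :=
  Tr.main hD

end Pool.Agent.Results.MP_c44e76_an.TransitiveShadowing
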